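import Pool.Agent.V11206.BFin

/-!
Slice discs whose triple points form a forest of blocks, each block being a single triple point or
thin, which means that the double arcs form no short closed chains there. In the
projection of a surface, the triple points are the Reidemeister moves of type III in its movie. The
movies here go from the link into the 4-ball, so that births of components are the local maxima of the
distance from the centre of the 4-ball. Every crossing belongs to a double arc of the projection (a
component of the set of double points which are not triple points), named by its colour (several arcs
may have one colour). Six double arcs end at a triple point, if an arc both whose ends are there
counts twice.
-/

namespace Pool.Agent.Results.MP_752436_gt.ArcBlocks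

open Pool.Agent.Y468.SR Pool.Agent.Y874.TP Pool.Agent.V11206

/-- Let the classical link with Gauss code `L` bound disjoint discs in the 4-ball by a movie, and let
`D` be the link in this movie before the first birth of a component. Let `A` be a set of double
curves of the projection of the discs bounded by `D` (those with colours outside `Z`) which contains
all double curves meeting `D`, such that through each triple point there pass none, one or three
double curves (branches) of `A`. Suppose that the triple points with three branches in `A` can be
divided into blocks with numbers (the `p`-th one is in the block with number `b p`), such that each
block is joined with the blocks with greater numbers by at most one double arc, and each block
consists of one triple point or is thin (see `Blocks`, `Thin`). Then `L` bounds disjoint ribbon discs,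
i.e. discs given by a movie without births.

For example, this holds if the graph, whose vertices are these triple points and whose edges are the
double arcs joining them, has no loops, no multiple edges and no triangles, and at no triple point
double arcs ending in branch points belong to all three double curves through it. It also holds if
this graph is a forest with arbitrary loops. There is no bound on the number of triple points. -/
theorem result (L : List (List Pass)) (Z : ℕ → Prop) (D : Code) (R : List Trp) (b : ℕ → ℕ)
    (h₁ : Movie true false L.zipIdx D) (h₂ : AMovie false Z D R) (hR : Blocks R b)
    (hZ : ∀ p ∈ passes D, ¬Z (colour p.crossing)) : Movie true false L.zipIdx [] := by
  have hn : (L.zipIdx.map Prod.snd).Nodup := by
    rw [List.zipIdx_map_snd]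
    exact List.nodup_range'
  exact h₁.trans (movie_of_blocks h₂ hR hZ (nodup_movie h₁ hn))

end Pool.Agent.Results.MP_752436_gt.ArcBlocks
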