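import Pool.Agent.V11206.CvG

/-!
Slice discs the corners of whose triple points have charges. In the projection of a surface, the
triple points are the Reidemeister moves of type III in its movie. The movies here go from the link
into the 4-ball, so that births of components are the local maxima of the distance from the centre of
the 4-ball. Every crossing belongs to a double arc of the projection (a component of the set of double
points which are not triple points), named by its colour (several arcs may have one colour). Six
double arcs end at a triple point, if an arc both whose ends are there counts twice.
-/

namespace Pool.Agent.Results.MP_752436_gt.ClassCharges

open Pool.Agent.Y468.SR Pool.Agent.Y874.TP Pool.Agent.V11206

/-- Let the classical link with Gauss code `L` bound disjoint discs in the 4-ball by a movie, and let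
`D` be the link in this movie before the first birth of a component. Let `A` be a set of double
curves of the projection of the discs bounded by `D` (those with colours outside `Z`) which contains
all double curves meeting `D`, such that through each triple point there pass none, one or three
double curves (branches) of `A`. Suppose that the corners of the triple points with three branches in
`A` have charges as in `Charges`, for some classes `κ` of double arcs: the charge of a closed chain of
`n ≤ 3` corners (which may bound a region with `n` corners of the complement of the double curves in
the discs) is at least `4 - n`, and the charge of all corners exceeds the number of corners both ends
of which are free by at most three. No charge is needed for the regions which admit a reduction: the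
bigons with sides starting and ending on double curves of the same kind (the two triple points
annihilate; this joins double arcs of one class with one another), and the small regions at one triple
point which is isolated or has all ends in one class. Then `L` bounds disjoint ribbon discs, i.e.
discs given by a movie without births.

An end of a double arc at a triple point is free if the double arc leads to the link. For example (see
`loose`), the condition holds if at each triple point at most as many of the eight corners in the top
and bottom sheets have no free end as there are corners with two free ends: if `a`, `b`, `c` are the
numbers of free ends of the double curves of the top and middle, top and bottom, middle and bottom
sheets, this says `2a + 4b + 2c + ac ≥ 8`. This is so if both ends of the double curve of the top and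
bottom sheets are free, or if each of the three double curves has a free end. There is no bound on the
number of triple points, and no condition on the double arcs joining them. -/
theorem result (L : List (List Pass)) (Z : ℕ → Prop) (D : Code) (R : List Trp) (κ : ℕ → ℕ)
    (x : ℕ → ℕ → ℕ → ℕ) (h₁ : Movie true false L.zipIdx D) (h₂ : AMovie false Z D R)
    (hR : Charges R κ x) (hZ : ∀ p ∈ passes D, ¬Z (colour p.crossing)) :
    Movie true false L.zipIdx [] := by
  have hn : (L.zipIdx.map Prod.snd).Nodup := by
    rw [List.zipIdx_map_snd]
    exact List.nodup_range'
  exact h₁.trans (movie_of_charges h₂ hR hZ (nodup_movie h₁ hn))

/-- The case of one class of double arcs: it suffices to count corners with free ends. -/
theorem loose (L : List (List Pass)) (Z : ℕ → Prop) (D : Code) (R : List Trp)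
    (h₁ : Movie true false L.zipIdx D) (h₂ : AMovie false Z D R)
    (hR : Loose R) (hZ : ∀ p ∈ passes D, ¬Z (colour p.crossing)) :
    Movie true false L.zipIdx [] :=
  result L Z D R _ _ h₁ h₂ (charges_of_loose hR) hZ

end Pool.Agent.Results.MP_752436_gt.ClassCharges
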