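import Pool.Agent.V11206.Few

/-!
Slice discs whose projections have at most three triple points. In the projection of a surface, the
triple points are the Reidemeister moves of type III in its movie. The movies here go from the link
into the 4-ball, so that births of components are the local maxima of the distance from the centre of
the 4-ball. Every crossing belongs to a double curve of the projection, named by its colour (several
curves may have one colour); branch points are allowed only on double curves with even colours.
-/

namespace Pool.Agent.Results.MP_752436_gt.FewTriplePoints

open Pool.Agent.Y468.SR Pool.Agent.Y874.TP Pool.Agent.V11206

/-- Let the classical link with Gauss code `L` bound disjoint discs in the 4-ball by a movie, and let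
`D` be the link in this movie before the first birth of a component. If the projection of the discs
bounded by `D` has at most three triple points, then `L` bounds disjoint ribbon discs, i.e. discs
given by a movie without births.

More generally, let `A` be a set of double curves of this projection (those with colours outside `Z`)
which contains all double curves meeting `D`, such that through each triple point there pass none, one
or three double curves (branches) of `A`. Then it is enough that there are at most three triple points
with three branches in `A`; `R` is the list of these triple points, given by the three colours. There
is no condition on the numbers of births and of the other triple points. If all colours are even and
`Z` is empty, this is the first statement. -/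
theorem result (L : List (List Pass)) (Z : ℕ → Prop) (D : Code) (R : List (ℕ × ℕ × ℕ))
    (h₁ : Movie true false L.zipIdx D) (h₂ : TMovie false Z D R) (hR : R.length ≤ 3)
    (hZ : ∀ p ∈ passes D, ¬Z (colour p.crossing)) : Movie true false L.zipIdx [] := by
  have hn : (L.zipIdx.map Prod.snd).Nodup := by
    rw [List.zipIdx_map_snd]
    exact List.nodup_range'
  exact h₁.trans (movie_of_tmovie3 h₂ hR hZ (nodup_movie h₁ hn))

end Pool.Agent.Results.MP_752436_gt.FewTriplePoints
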