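import Pool.Agent.V11206.TLift

/-!
Slice discs whose double curves keep their places at the triple points. In the projection of a
surface, the triple points are the Reidemeister moves of type III in its movie. The movies here go
from the link into the 4-ball, so that births of components are the local maxima of the distance from
the centre of the 4-ball. Every crossing belongs to a double curve of the projection, named by its
colour (several curves may have one colour); branch points are allowed only on double curves with
even colours. The preimage of the double curves with colour `k` in the surface consists of the curves
named by `lf k true` (upper points) and `lf k false` (lower points), which are the same for even `k`.
-/

namespace Pool.Agent.Results.MP_752436_gt.SteadyPlaces

open Pool.Agent.Y468.SR Pool.Agent.Y874.TP Pool.Agent.V11206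

/-- Let the classical link with Gauss code `L` bound disjoint discs in the 4-ball by a movie, and let
`D` be the link in this movie before the first birth of a component. Let `A` be a set of double
curves of the projection of the discs bounded by `D` (those with colours outside `Z`) which contains
all double curves meeting `D`. Suppose that through each triple point there pass none, one or three
double curves (branches) of `A`. Let `R` be the list of the triple points with three branches in `A`,
given by the three colours (top and middle, top and bottom, middle and bottom sheet), and suppose
that `Good R` holds:
* if the double curves `k` and `l` are the first and the second one at a triple point, then at no
  triple point are they the second and the first one; the same for the second and the third one;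
* if two triple points have two common double curves, at the same places, then the third double
  curves coincide, too;
* in the discs, no curve of the preimage of `A` crosses itself (at triple points in `R`), and no
  three of these curves cross one another.

For example, this holds if every double curve of `A` has the same place (top and middle, top and
bottom, or middle and bottom) at all triple points in `R` and the double curves at one of these three
places have no branch points: then the double curves at each place get one colour, one of these three
colours is odd, and `R` consists of one triple. There is no bound on the numbers of births, of triple
points and of crossings of two curves. Then `L` bounds disjoint ribbon discs, i.e. discs given by a
movie without births. -/
theorem result (L : List (List Pass)) (Z : ℕ → Prop) (D : Code) (R : List (ℕ × ℕ × ℕ))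
    (h₁ : Movie true false L.zipIdx D) (h₂ : TMovie false Z D R) (hR : Good R)
    (hZ : ∀ p ∈ passes D, ¬Z (colour p.crossing)) : Movie true false L.zipIdx [] := by
  have hn : (L.zipIdx.map Prod.snd).Nodup := by
    rw [List.zipIdx_map_snd]
    exact List.nodup_range'
  exact h₁.trans (movie_of_tmovie h₂ hR hZ (nodup_movie h₁ hn))

end Pool.Agent.Results.MP_752436_gt.SteadyPlaces
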